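import Pool.Agent.W2helper9.OP.Stm

/-!
# Project OP: elementary lemmas on `mp`, `PEq`, `Cong`, `AA`
-/

set_option autoImplicit false
set_option linter.unusedSectionVars false

open MvPolynomial IsDedekindDomain NumberField Filter

namespace Pool.Agent.W2helper11.OP

open Pool.Agent.Helper819.Dyn (Tuple IsEnd)
open Pool.Agent.W2helper9.OP

section mp
variable {k E : Type} [Field k] [Field E] [Algebra k E] {N d : ℕ} {F : Tuple k N}

theorem aeval_smul_hom {σ : Type} [Fintype σ] {p : MvPolynomial σ k} (hp : p.IsHomogeneous d)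
    (c : E) (x : σ → E) : aeval (c • x) p = c ^ d * aeval x p := by
  rw [aeval_def, aeval_def, eval₂_eq', eval₂_eq', Finset.mul_sum]
  refine Finset.sum_congr rfl fun m hm => ?_
  have h1 : ∑ i, m i = d := by
    have h2 := hp (mem_support_iff.1 hm)
    rw [Finsupp.weight_apply, Finsupp.sum_fintype] at h2
    · simpa using h2
    · intro i; simp
  have h3 : ∏ i, (c • x) i ^ m i = c ^ d * ∏ i, x i ^ m i := by
    simp only [Pi.smul_apply, smul_eq_mul, mul_pow]
    rw [Finset.prod_mul_distrib, Finset.prod_pow_eq_pow_sum, h1]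
  rw [h3]
  ring

theorem mp_smul (hF : ∀ i, (F i).IsHomogeneous d) (c : E) (x : Fin (N + 1) → E) :
    mp F (c • x) = c ^ d • mp F x := by
  funext i
  exact aeval_smul_hom (hF i) c x

theorem PEq.refl (x : Fin (N + 1) → E) : PEq x x := ⟨1, one_ne_zero, by rw [one_smul]⟩

theorem PEq.symm {x y : Fin (N + 1) → E} (h : PEq x y) : PEq y x := by
  obtain ⟨c, hc, rfl⟩ := h
  exact ⟨c⁻¹, inv_ne_zero hc, by rw [smul_smul, inv_mul_cancel₀ hc, one_smul]⟩

theorem PEq.trans {x y z : Fin (N + 1) → E} (h : PEq x y) (h' : PEq y z) : PEq x z := by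
  obtain ⟨c, hc, rfl⟩ := h
  obtain ⟨b, hb, rfl⟩ := h'
  exact ⟨b * c, mul_ne_zero hb hc, by rw [smul_smul]⟩

theorem PEq.ne_zero {x y : Fin (N + 1) → E} (h : PEq x y) (hx : x ≠ 0) : y ≠ 0 := by
  obtain ⟨c, hc, rfl⟩ := h
  exact smul_ne_zero hc hx

theorem PEq.map (hF : ∀ i, (F i).IsHomogeneous d) {x y : Fin (N + 1) → E} (h : PEq x y) :
    PEq (mp F x) (mp F y) := by
  obtain ⟨c, hc, rfl⟩ := h
  exact ⟨c ^ d, pow_ne_zero _ hc, mp_smul hF c x⟩

theorem PEq.iter (hF : ∀ i, (F i).IsHomogeneous d) {x y : Fin (N + 1) → E} (h : PEq x y)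
    (n : ℕ) : PEq ((mp F)^[n] x) ((mp F)^[n] y) := by
  induction n with
  | zero => exact h
  | succ n ih =>
    rw [Function.iterate_succ_apply', Function.iterate_succ_apply']
    exact PEq.map hF ih

end mp

section cong
variable {E Γ : Type} [Field E] [LinearOrderedCommGroupWithZero Γ] {N : ℕ} {ν : Valuation E Γ}

theorem Cong.symm {x y : Fin (N + 1) → E} (h : Cong ν x y) : Cong ν y x := by
  obtain ⟨a, b, h1, ⟨j, h2⟩, h3⟩ := h
  have e : ∀ i, b * y i = a * x i - (a * x i - b * y i) := fun i => by ring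
  refine ⟨b, a, fun i => ?_, ⟨j, ?_⟩, fun i => ?_⟩
  · rw [e]
    exact (Valuation.map_sub _ _ _).trans (max_le (h1 i) (h3 i).le)
  · rw [e]
    rw [Valuation.map_sub_eq_of_lt_left]
    · exact h2
    · rw [h2]; exact h3 j
  · have : b * y i - a * x i = -(a * x i - b * y i) := by ring
    rw [this, Valuation.map_neg]
    exact h3 i

theorem Cong.refl {x : Fin (N + 1) → E} (hx : x ≠ 0) : Cong ν x x := by
  obtain ⟨j, hj⟩ := Finite.exists_max (fun i => ν (x i))
  have hxj : x j ≠ 0 := by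
    intro h
    apply hx
    funext i
    have h1 := hj i
    simp only [h, map_zero, le_zero_iff, Valuation.zero_iff] at h1
    exact h1
  refine ⟨(x j)⁻¹, (x j)⁻¹, fun i => ?_, ⟨j, ?_⟩, fun i => ?_⟩
  · rw [map_mul, map_inv₀]
    have h1 := hj i
    have h2 : ν (x j) ≠ 0 := (Valuation.ne_zero_iff _).2 hxj
    calc (ν (x j))⁻¹ * ν (x i) ≤ (ν (x j))⁻¹ * ν (x j) := mul_le_mul_right h1 _
      _ = 1 := inv_mul_cancel₀ h2
  · rw [inv_mul_cancel₀ hxj, map_one]
  · rw [sub_self, map_zero]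
    exact zero_lt_one

theorem Cong.trans {x y z : Fin (N + 1) → E} (h : Cong ν x y) (h' : Cong ν y z) :
    Cong ν x z := by
  obtain ⟨a, b, h1, ⟨j, h2⟩, h3⟩ := h
  obtain ⟨a', b', h1', ⟨j', h2'⟩, h3'⟩ := h'
  -- `b y` is normalised, `a' y` is normalised
  have hb : (∀ i, ν (b * y i) ≤ 1) ∧ ∃ i, ν (b * y i) = 1 := by
    have e : ∀ i, b * y i = a * x i - (a * x i - b * y i) := fun i => by ring
    refine ⟨fun i => ?_, ⟨j, ?_⟩⟩
    · rw [e]
      exact (Valuation.map_sub _ _ _).trans (max_le (h1 i) (h3 i).le)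
    · rw [e]
      rw [Valuation.map_sub_eq_of_lt_left]
      · exact h2
      · rw [h2]; exact h3 j
  obtain ⟨hb1, i0, hb2⟩ := hb
  have ha'0 : a' ≠ 0 := by
    rintro rfl
    rw [zero_mul, map_zero] at h2'
    exact zero_ne_one h2'
  have hb0 : b ≠ 0 := by
    rintro rfl
    rw [zero_mul, map_zero] at hb2
    exact zero_ne_one hb2
  have hy0 : y i0 ≠ 0 := by
    intro h
    rw [h, mul_zero, map_zero] at hb2
    exact zero_ne_one hb2
  have hy1 : y j' ≠ 0 := by
    intro h
    rw [h, mul_zero, map_zero] at h2'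
    exact zero_ne_one h2'
  set t := b / a' with ht
  have ht0 : t ≠ 0 := div_ne_zero hb0 ha'0
  have e1 : ∀ i, b * y i = t * (a' * y i) := fun i => by
    rw [ht]; field_simp
  have ht1 : ν t = 1 := by
    apply le_antisymm
    · have h := hb1 j'
      rw [e1, map_mul, h2', mul_one] at h
      exact h
    · have h := h1' i0
      rw [e1, map_mul] at hb2
      rw [← hb2]
      calc ν t * ν (a' * y i0) ≤ ν t * 1 := mul_le_mul_right h _
        _ = ν t := mul_one _
  refine ⟨a, t * b', h1, ⟨j, h2⟩, fun i => ?_⟩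
  have e2 : a * x i - t * b' * z i = (a * x i - b * y i) + t * (a' * y i - b' * z i) := by
    rw [e1]; ring
  rw [e2]
  refine Valuation.map_add_lt _ (h3 i) ?_
  rw [map_mul, ht1, one_mul]
  exact h3' i

theorem Cong.of_peq_left {x x' y : Fin (N + 1) → E} (h : PEq x x') (h' : Cong ν x y) :
    Cong ν x' y := by
  obtain ⟨c, hc, rfl⟩ := h
  obtain ⟨a, b, h1, ⟨j, h2⟩, h3⟩ := h'
  have e : ∀ i, a * c⁻¹ * (c • x) i = a * x i := fun i => by
    simp only [Pi.smul_apply, smul_eq_mul]
    field_simp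
  refine ⟨a * c⁻¹, b, fun i => ?_, ⟨j, ?_⟩, fun i => ?_⟩
  · rw [e]; exact h1 i
  · rw [e]; exact h2
  · rw [e]; exact h3 i

theorem Cong.of_peq_right {x y y' : Fin (N + 1) → E} (h : PEq y y') (h' : Cong ν x y) :
    Cong ν x y' := Cong.symm (Cong.of_peq_left h (Cong.symm h'))

end cong

section nf
variable {K : Type} [Field K] [NumberField K] {N d : ℕ} {F : Tuple K N}

theorem mp_emb (x : Fin (N + 1) → K) : mp F (emb x) = emb (mp F x) := by
  funext i
  unfold mp emb
  rw [← aeval_algebraMap_apply]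
  rfl

theorem iter_emb (n : ℕ) (x : Fin (N + 1) → K) :
    (mp F)^[n] (emb x) = emb ((mp F)^[n] x) := by
  induction n with
  | zero => rfl
  | succ n ih => rw [Function.iterate_succ_apply', Function.iterate_succ_apply', ih, mp_emb]

theorem emb_ne_zero {x : Fin (N + 1) → K} (hx : x ≠ 0) : emb x ≠ 0 := by
  intro h
  apply hx
  funext i
  have h1 : algebraMap K (AlgebraicClosure K) (x i) = 0 := congrFun h i
  exact (map_eq_zero _).1 h1

theorem mp_ne_zero (h : IsEnd d F) {x : Fin (N + 1) → AlgebraicClosure K} (hx : x ≠ 0) :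
    mp F x ≠ 0 := by
  intro h0
  exact hx (h.2 x fun i => congrFun h0 i)

theorem iter_ne_zero (h : IsEnd d F) {x : Fin (N + 1) → AlgebraicClosure K} (hx : x ≠ 0)
    (n : ℕ) : (mp F)^[n] x ≠ 0 := by
  induction n with
  | zero => exact hx
  | succ n ih =>
    rw [Function.iterate_succ_apply']
    exact mp_ne_zero h ih

theorem peq_of_emb {x y : Fin (N + 1) → K} (hx : x ≠ 0) (h : PEq (emb x) (emb y)) : PEq x y := by
  obtain ⟨c, hc, h⟩ := h
  obtain ⟨j, hj⟩ : ∃ j, x j ≠ 0 := by
    by_contra hcon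
    push Not at hcon
    exact hx (funext hcon)
  have h1 : ∀ i, algebraMap K (AlgebraicClosure K) (y i) =
      c * algebraMap K (AlgebraicClosure K) (x i) := fun i => congrFun h i
  have hinj := FaithfulSMul.algebraMap_injective K (AlgebraicClosure K)
  have hc2 : c = algebraMap K (AlgebraicClosure K) (y j / x j) := by
    rw [map_div₀, h1 j]
    have : algebraMap K (AlgebraicClosure K) (x j) ≠ 0 := (map_ne_zero _).2 hj
    field_simp
  have hyj : y j ≠ 0 := by
    intro h0
    rw [h0, zero_div, map_zero] at hc2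
    exact hc hc2
  refine ⟨y j / x j, div_ne_zero hyj hj, ?_⟩
  funext i
  apply hinj
  rw [h1 i, hc2, Pi.smul_apply, smul_eq_mul, map_mul]

theorem emb_peq {x y : Fin (N + 1) → K} (h : PEq x y) : PEq (emb x) (emb y) := by
  obtain ⟨c, hc, rfl⟩ := h
  refine ⟨algebraMap K _ c, (map_ne_zero _).2 hc, ?_⟩
  funext i
  simp [emb]

theorem AA.mono {P Q : ValuationSubring (AlgebraicClosure K) → Prop} (h : AA K P)
    (hPQ : ∀ A, P A → Q A) : AA K Q := by
  refine Set.Finite.subset h ?_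
  rintro v ⟨A, hA, hQ⟩
  exact ⟨A, hA, fun hP => hQ (hPQ A hP)⟩

theorem AA.and {P Q : ValuationSubring (AlgebraicClosure K) → Prop} (h : AA K P)
    (h' : AA K Q) : AA K (fun A => P A ∧ Q A) := by
  refine (Set.Finite.union h h').subset ?_
  rintro v ⟨A, hA, hPQ⟩
  by_cases hP : P A
  · right
    exact ⟨A, hA, fun hQ => hPQ ⟨hP, hQ⟩⟩
  · left
    exact ⟨A, hA, hP⟩

theorem AA.forall_finite {ι : Type} {s : Set ι} (hs : s.Finite)
    {P : ι → ValuationSubring (AlgebraicClosure K) → Prop} (h : ∀ i ∈ s, AA K (P i)) :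
    AA K (fun A => ∀ i ∈ s, P i A) := by
  refine (hs.biUnion h).subset ?_
  rintro v ⟨A, hA, hP⟩
  push Not at hP
  obtain ⟨i, hi, hPi⟩ := hP
  simp only [Set.mem_iUnion]
  exact ⟨i, hi, A, hA, hPi⟩

theorem AA.of_forall {P : ValuationSubring (AlgebraicClosure K) → Prop} (h : ∀ A, P A) :
    AA K P := by
  refine Set.finite_empty.subset ?_
  rintro v ⟨A, hA, hP⟩
  exact absurd (h A) hP

theorem cong_iter (hCM : P_CMAP) (hF : ∀ i, (F i).IsHomogeneous d)
    {A : ValuationSubring (AlgebraicClosure K)} (hA : GoodA F A)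
    {x y : Fin (N + 1) → AlgebraicClosure K} (h : Cong A.valuation x y) (n : ℕ) :
    Cong A.valuation ((mp F)^[n] x) ((mp F)^[n] y) := by
  induction n with
  | zero => exact h
  | succ n ih =>
    rw [Function.iterate_succ_apply', Function.iterate_succ_apply']
    exact hCM K N d F A hF hA _ _ ih

end nf

end Pool.Agent.W2helper11.OP
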