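import Pool.Agent.W2helper11.OP.Base

/-!
# Project OP, pieces STA and STB: property `(*)`
-/

set_option autoImplicit false
set_option linter.unusedSectionVars false

open MvPolynomial IsDedekindDomain NumberField Filter

namespace Pool.Agent.W2helper11.OP

open Pool.Agent.Helper819.Dyn (Tuple IsEnd)
open Pool.Agent.W2helper9.OP

theorem p_sta : P_STA := by
  intro hCO hCM K _ _ N d F γ v A hE hγ hA hG hnp δ k hδ hk hkδ hc
  exfalso
  apply hnp k hk
  rw [← hCO K N v A hA]
  have h1 := cong_iter hCM hE.1 hG hc k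
  rw [iter_emb] at h1
  exact Cong.symm (Cong.of_peq_left hkδ h1)

theorem p_stb : P_STB := by
  intro hI hD hGA hFI hCM K _ _ N d F γ hd hE hγ hpre
  classical
  obtain ⟨m, n, hmn, hper⟩ := hpre
  have hγ' := emb_ne_zero (K := K) hγ
  -- congruence to `γ` in the orbit of `γ` implies equality
  have hrep : ∀ k : ℕ, ∃ j < n, PEq ((mp F)^[k] (emb γ)) ((mp F)^[j] (emb γ)) := by
    intro k
    induction k with
    | zero => exact ⟨0, by omega, PEq.refl _⟩
    | succ k ih =>
      obtain ⟨j, hj, h⟩ := ih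
      have h1 := PEq.map hE.1 h
      rw [← Function.iterate_succ_apply' (mp F) k, ← Function.iterate_succ_apply' (mp F) j] at h1
      by_cases hjn : j + 1 < n
      · exact ⟨j + 1, hjn, h1⟩
      · have hjn' : j + 1 = n := by omega
        refine ⟨m, hmn, PEq.trans h1 ?_⟩
        rw [Nat.succ_eq_add_one, hjn']
        have h2 := PEq.symm (emb_peq hper)
        rw [← iter_emb, ← iter_emb] at h2
        exact h2
  have h1 : AA K fun A => ∀ j ∈ Set.Iio n, ¬ PEq ((mp F)^[j] (emb γ)) (emb γ) →
      ¬ Cong A.valuation ((mp F)^[j] (emb γ)) (emb γ) := by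
    refine AA.forall_finite (Set.finite_Iio n) fun j _ => ?_
    by_cases hj : PEq ((mp F)^[j] (emb γ)) (emb γ)
    · exact AA.of_forall fun A h => absurd hj h
    · exact AA.mono (hD hI K N _ _ (iter_ne_zero hE hγ' j) hγ' hj) fun A h _ => h
  have h2 : AA K fun A => ∀ k : ℕ, Cong A.valuation ((mp F)^[k] (emb γ)) (emb γ) →
      PEq ((mp F)^[k] (emb γ)) (emb γ) := by
    refine AA.mono h1 fun A hA k hk => ?_
    obtain ⟨j, hj, h⟩ := hrep k
    by_contra hcon
    refine hA j hj (fun h' => hcon (PEq.trans h h')) (Cong.of_peq_left h hk)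
  have hGA' := hGA hI K N d F hE
  by_cases hp : ∃ r : ℕ, 0 < r ∧ PEq ((mp F)^[r] (emb γ)) (emb γ)
  · obtain ⟨r, hr, hrγ⟩ := hp
    -- the fibre
    have hfin := hFI K N d F hd hE r (emb γ) hγ'
    have h3 : AA K fun A => ∀ δ ∈ {δ : Fin (N + 1) → AlgebraicClosure K |
        (∃ j, δ j = 1) ∧ PEq ((mp F)^[r] δ) (emb γ)}, ¬ PEq δ (emb γ) →
        ¬ Cong A.valuation δ (emb γ) := by
      refine AA.forall_finite hfin fun δ hδ => ?_
      by_cases hj : PEq δ (emb γ)
      · exact AA.of_forall fun A h => absurd hj h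
      · have hδ0 : δ ≠ 0 := by
          obtain ⟨⟨j, hj⟩, _⟩ := hδ
          intro h
          rw [h] at hj
          exact zero_ne_one hj
        exact AA.mono (hD hI K N _ _ hδ0 hγ' hj) fun A h _ => h
    refine AA.mono (AA.and hGA' (AA.and h2 h3)) ?_
    rintro A ⟨hG, hA2, hA3⟩ δ k hδ hk hkδ hc
    -- `γ` has period `k`
    have h4 := cong_iter hCM hE.1 hG hc k
    have h5 : PEq ((mp F)^[k] (emb γ)) (emb γ) :=
      hA2 k (Cong.symm (Cong.of_peq_left hkδ h4))
    have hkm : ∀ t : ℕ, PEq ((mp F)^[k * t] (emb γ)) (emb γ) := by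
      intro t
      induction t with
      | zero => exact PEq.refl _
      | succ t ih =>
        rw [Nat.mul_succ, Function.iterate_add_apply]
        exact PEq.trans (PEq.iter hE.1 h5 (k * t)) ih
    have hrm : ∀ t : ℕ, PEq ((mp F)^[r * t] (emb γ)) (emb γ) := by
      intro t
      induction t with
      | zero => exact PEq.refl _
      | succ t ih =>
        rw [Nat.mul_succ, Function.iterate_add_apply]
        exact PEq.trans (PEq.iter hE.1 hrγ (r * t)) ih
    -- the iterates of `g = Φ ^ r` at `δ` reach `γ`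
    have hex : ∃ t : ℕ, PEq ((mp F)^[r * t] δ) (emb γ) := by
      refine ⟨k, ?_⟩
      obtain ⟨r', rfl⟩ : ∃ r', r = r' + 1 := ⟨r - 1, by omega⟩
      have e : (r' + 1) * k = k * r' + k := by ring
      rw [e, Function.iterate_add_apply]
      exact PEq.trans (PEq.iter hE.1 hkδ (k * r')) (hkm r')
    obtain ⟨ht, hmin⟩ := And.intro (Nat.find_spec hex) (fun j (hj : j < Nat.find hex) =>
      Nat.find_min hex hj)
    set t := Nat.find hex with htdef
    rcases Nat.eq_zero_or_pos t with h0 | hpos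
    · rw [h0] at ht
      exact ht
    · exfalso
      obtain ⟨s, hs⟩ : ∃ s, t = s + 1 := ⟨t - 1, by omega⟩
      have hnot := hmin s (by omega)
      set δ' := (mp F)^[r * s] δ with hδ'
      have hδ'0 : δ' ≠ 0 := iter_ne_zero hE hδ _
      obtain ⟨j, hj⟩ : ∃ j, δ' j ≠ 0 := by
        by_contra hcon
        push Not at hcon
        exact hδ'0 (funext hcon)
      have hpe : PEq δ' ((δ' j)⁻¹ • δ') := ⟨_, inv_ne_zero hj, rfl⟩
      have hg : PEq ((mp F)^[r] δ') (emb γ) := by
        rw [hδ', ← Function.iterate_add_apply]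
        have e : r + r * s = r * t := by rw [hs]; ring
        rw [e]
        exact ht
      have hcong : Cong A.valuation δ' (emb γ) := by
        have h6 := cong_iter hCM hE.1 hG hc (r * s)
        exact Cong.of_peq_right (hrm s) h6
      refine hA3 ((δ' j)⁻¹ • δ') ⟨⟨j, ?_⟩, ?_⟩ ?_ ?_
      · simp [hj]
      · exact PEq.trans (PEq.symm (PEq.iter hE.1 hpe r)) hg
      · intro h'
        exact hnot (PEq.trans hpe h')
      · exact Cong.of_peq_left hpe hcong
  · refine AA.mono (AA.and hGA' h2) ?_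
    rintro A ⟨hG, hA2⟩ δ k hδ hk hkδ hc
    exfalso
    apply hp
    have h4 := cong_iter hCM hE.1 hG hc k
    exact ⟨k, hk, hA2 k (Cong.symm (Cong.of_peq_left hkδ h4))⟩

end Pool.Agent.W2helper11.OP
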